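import Pool.Agent.Lib.MP_155f9b_an.Graph

/-! Flat one-phase free boundaries in a ball minus a thin cylinder are graphs of small slope.
The cylinder has an arbitrary axis direction `e`; `‖x - ⟪x, e⟫ • e‖` is the distance from `x` to
the axis. -/

open Filter Topology Pool.Agent.Lib.MP_155f9b_an
open scoped RealInnerProductSpace

theorem Pool.Agent.Results.MP_155f9b_an.FlatGraph.result :
    ∀ e : EuclideanSpace ℝ (Fin 3), ‖e‖ = 1 → ∃ δ₀ ε C : ℝ, 0 < δ₀ ∧ 0 < ε ∧ 0 < C ∧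
      ∀ δ : ℝ, 0 < δ → δ ≤ δ₀ →
      ∀ (Ω : Set (EuclideanSpace ℝ (Fin 3))) (u : EuclideanSpace ℝ (Fin 3) → ℝ),
        {x | ‖x‖ < 1 ∧ δ < ‖x - inner ℝ x e • e‖} ⊆ Ω →
        Ω ⊆ {x | ‖x‖ < 1 ∧ δ ≤ ‖x - inner ℝ x e • e‖} →
        ContinuousOn u (interior Ω) → (∀ x ∈ Ω, 0 ≤ u x) →
        InnerProductSpace.HarmonicOnNhd u {x ∈ interior Ω | 0 < u x} →
        (∀ p ∈ frontier {x ∈ Ω | 0 < u x} ∩ interior Ω,
          Tendsto (fun x => ‖gradient u x‖) (𝓝[{x ∈ Ω | 0 < u x}] p) (𝓝 1)) →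
        ContractibleSpace {x ∈ Ω | 0 < u x} → ContractibleSpace {x ∈ Ω | u x = 0} →
        (∀ x ∈ Ω, ε < x 0 → 0 < u x) → (∀ x ∈ Ω, x 0 < -ε → u x = 0) →
        ∃ g : EuclideanSpace ℝ (Fin 2) → ℝ, Differentiable ℝ g ∧ (∀ y, ‖gradient g y‖ ≤ 1 / 100) ∧
          frontier {x ∈ Ω | 0 < u x} ∩ Ω ∩ {x | ‖x‖ < 1 / C ∧ C * δ < ‖x - inner ℝ x e • e‖} =
            {x ∈ {x | ‖x‖ < 1 / C ∧ C * δ < ‖x - inner ℝ x e • e‖} | x 0 = g !₂[x 1, x 2]} := by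
  intro e he
  obtain ⟨ν, hν, nx, n1, n2⟩ : ∃ ν : E, ‖ν‖ = 1 ∧ (∀ x : E, ⟪x, ν⟫ = x 0) ∧ ν 1 = 0 ∧ ν 2 = 0 :=
    ⟨EuclideanSpace.single 0 1, by simp, fun x => by simp [EuclideanSpace.inner_single_right],
      by simp, by simp⟩
  have n0 : ν 0 = 1 := by rw [← nx, inner_unit hν]
  rcases ne_or_eq ⟪e, ν⟫ 0 with en | en
  · have c0 := abs_pos.2 en
    have c1 := (abs_inner_le hν e).trans_eq he
    refine ⟨|⟪e, ν⟫| / 16, |⟪e, ν⟫| / 8, 1, by positivity, by positivity, one_pos,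
      fun δ δ0 δ1 Ω u O1 O2 _ _ _ _ hP _ h1 _ => ?_⟩
    obtain ⟨t, t1, t2⟩ : ∃ t : ℝ, |t| = 1 / 2 ∧ t * ⟪e, ν⟫ = |⟪e, ν⟫| / 2 := by
      rcases abs_choice ⟪e, ν⟫ with c | c
      · exact ⟨1 / 2, by norm_num, by linarith⟩
      · exact ⟨-(1 / 2), by norm_num, by linarith⟩
    refine absurd (fun x hx => ?_) (not_circ_subset (t := t) (S := {x ∈ Ω | 0 < u x}) he
      (fun x hx => δ0.trans_le (O2 hx.1).2) (show 0 < |⟪e, ν⟫| / 8 by positivity))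
    have a1 : x ∈ Ω := O1 ⟨by linarith [circ_norm he hx], by
      show δ < dd e x
      linarith [hx.2]⟩
    have a2 := (abs_le.1 ((abs_inner_le hν _).trans_eq (circ_dist hx))).1
    rw [inner_sub_left, real_inner_smul_left, nx x] at a2
    exact ⟨a1, h1 x a1 (by linarith)⟩
  obtain ⟨K, τ, ε, K1, τ0, τ1, ε0, H⟩ := exists_graph he hν en
  refine ⟨ε, ε, max K (1 / τ), ε0, ε0, by positivity,
    fun δ δ0 δ1 Ω u O1 O2 hc h0 hh hg hP hZ h1 h2 => ?_⟩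
  have ho := isOpen_dom e 1 δ
  set O := {x : E | ‖x‖ < 1 ∧ δ < dd e x}
  have O3 : O ⊆ interior Ω := interior_maximal O1 ho
  have oS : IsOpen {x ∈ O | 0 < u x} := (hc.mono O3).isOpen_inter_preimage ho isOpen_Ioi
  have fr : ∀ x ∈ O, x ∈ frontier {x ∈ Ω | 0 < u x} ↔
      x ∈ closure {x ∈ O | 0 < u x} ∧ u x = 0 := fun x hx => by
    have e1 : {x ∈ Ω | 0 < u x} ∩ O = {x ∈ O | 0 < u x} :=
      Set.ext fun y => ⟨fun g => ⟨g.2, g.1.2⟩, fun g => ⟨⟨O1 g.1, g.2⟩, g.1⟩⟩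
    have e2 := Set.ext_iff.1 (frontier_inter_open_inter (s := {x ∈ Ω | 0 < u x}) ho) x
    rw [e1, oS.frontier_eq] at e2
    exact ⟨fun g => ⟨(e2.2 ⟨g, hx⟩).1.1, ((h0 x (O1 hx)).eq_or_lt.resolve_right fun c =>
      (e2.2 ⟨g, hx⟩).1.2 ⟨hx, c⟩).symm⟩, fun g => (e2.1 ⟨⟨g.1, fun c => c.2.ne' g.2⟩, hx⟩).1⟩
  have cO : ∀ t s, δ < s → |t| + s < 1 → ∀ x ∈ circ e t s, x ∈ O := fun t s a b x hx =>
    ⟨(circ_norm he hx).trans_lt b, a.trans_eq hx.2.symm⟩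
  obtain ⟨G, G1, G2⟩ := H u (closure {x ∈ O | 0 < u x}) δ ⟨δ0, visc_of_classical ho (hc.mono O3)
    (fun x hx => h0 x (O1 hx)) (fun x hx => hh x ⟨O3 hx.1, hx.2⟩) fun p p1 p2 p3 =>
      (hg p ⟨(fr p p1).2 ⟨p2, p3⟩, O3 p1⟩).mono_left (nhdsWithin_mono _ fun x hx =>
        ⟨O1 hx.1, hx.2⟩), fun t s a b => by
      obtain ⟨x, x1, x2⟩ := Set.not_subset.1 (not_circ_subset (t := t) (S := {x ∈ Ω | u x = 0}) he
        (fun x hx => δ0.trans_le (O2 hx.1).2) (δ0.trans a))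
      have := cO t s a b x x1
      exact ⟨x, x1, subset_closure ⟨this, (h0 x (O1 this)).lt_of_ne fun c => x2 ⟨O1 this, c.symm⟩⟩⟩,
    fun t s a b => by
      obtain ⟨x, x1, x2⟩ := Set.not_subset.1 (not_circ_subset (t := t) (S := {x ∈ Ω | 0 < u x}) he
        (fun x hx => δ0.trans_le (O2 hx.1).2) (δ0.trans a))
      exact ⟨x, x1, not_lt.1 fun c => x2 ⟨O1 (cO t s a b x x1), c⟩⟩⟩
    ⟨δ1, fun x a b c => h1 x (O1 ⟨a, b⟩) (nx x ▸ c), fun x hx => closure_minimal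
      (t := {x | -ε ≤ ⟪x, ν⟫}) (fun y hy => not_lt.1 fun c => hy.2.ne' (h2 y (O1 hy.1) (nx y ▸ c)))
      (isClosed_le continuous_const (by fun_prop)) hx⟩
  obtain ⟨ι, i0, i1, i2⟩ : ∃ ι : EuclideanSpace ℝ (Fin 2) →L[ℝ] E, (∀ y, ι y 0 = 0) ∧
      (∀ y, ι y 1 = y 0) ∧ ∀ y, ι y 2 = y 1 :=
    ⟨(EuclideanSpace.proj 0).smulRight (EuclideanSpace.single 1 1) +
      (EuclideanSpace.proj 1).smulRight (EuclideanSpace.single 2 1), by simp, by simp, by simp⟩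
  have i3 : ‖ι‖ ≤ 1 := ι.opNorm_le_bound zero_le_one fun y => le_of_eq (by
    simp [EuclideanSpace.norm_eq, Fin.sum_univ_three, i0, i1, i2])
  have i4 : ∀ x : E, ι !₂[x 1, x 2] = pr ν x := fun x => by
    ext k
    fin_cases k <;> simp [pr, i0, i1, i2, nx, n0, n1, n2]
  have hD : ∀ y, ∃ D : EuclideanSpace ℝ (Fin 2) →L[ℝ] ℝ, HasFDerivAt (fun y => G (ι y)) D y ∧
      ‖D‖ ≤ 1 / 100 := fun y => by
    obtain ⟨D, d1, d2⟩ := G1 (ι y) (by rw [nx, i0])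
    exact ⟨_, d1.comp y ι.hasFDerivAt, (D.opNorm_comp_le ι).trans
      ((mul_le_of_le_one_right (norm_nonneg _) i3).trans d2)⟩
  refine ⟨fun y => G (ι y), fun y => (hD y).elim fun D d => d.1.differentiableAt, fun y => ?_,
    Set.ext fun x => ?_⟩
  · obtain ⟨D, d1, d2⟩ := hD y
    rwa [gradient, LinearIsometryEquiv.norm_map, d1.fderiv]
  have k : ‖x‖ < 1 / max K (1 / τ) ∧ max K (1 / τ) * δ < dd e x → x ∈ O ∧
      (x ∈ frontier {x ∈ Ω | 0 < u x} ↔ x 0 = G (ι !₂[x 1, x 2])) := fun hx => by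
    have a1 : ‖x‖ < τ := hx.1.trans_le ((one_div_le (by positivity) τ0).2 (le_max_right _ _))
    have a2 := (mul_le_mul_of_nonneg_right (le_max_left _ _) δ0.le).trans_lt hx.2
    have a3 : x ∈ O := ⟨by linarith, by nlinarith⟩
    exact ⟨a3, by rw [fr x a3, G2 x a1 a2, nx, i4]⟩
  exact ⟨fun g => ⟨g.2, (k g.2).2.1 g.1.1⟩, fun g => ⟨⟨(k g.1).2.2 g.2, O1 (k g.1).1⟩, g.1⟩⟩
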